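import Pool.Agent.Helper79.GR.Defs

/-!
# Percolation package: the boundary of a set of lattice points is connected through plaquettes

If `A` and its complement are connected, any two boundary edges of `A` are joined by a chain of
boundary edges, two consecutive ones in a common plaquette.  Proof: closed cochains modulo 2 on the
lattice are exact.
-/

set_option autoImplicit false

namespace Pool.Agent.Helper97.PG

open Finset Pool.Agent.Helper79.GR

variable {d : ℕ}

/-- unit vector -/
def ev (i : Fin d) : V d := Pi.single i 1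

/-! ## closed cochains are exact -/

section Potential

variable {G : Type*} [AddCommGroup G]

/-- sums from `0` to `t` -/
noncomputable def psum (h : ℤ → G) (t : ℤ) : G := ∑ s ∈ Ico 0 t, h s - ∑ s ∈ Ico t 0, h s

theorem psum_succ (h : ℤ → G) (t : ℤ) : psum h (t + 1) = psum h t + h t := by
  unfold psum
  rcases le_or_gt 0 t with ht | ht
  · rw [Ico_eq_empty (a := t) (by omega), Ico_eq_empty (a := t + 1) (by omega)]
    have : Ico 0 (t + 1) = insert t (Ico 0 t) := by
      ext s
      simp only [mem_insert, mem_Ico]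
      omega
    rw [this, sum_insert (by simp)]
    abel
  · rw [Ico_eq_empty (a := 0) (b := t) (by omega), Ico_eq_empty (a := 0) (b := t + 1) (by omega)]
    have : Ico t 0 = insert t (Ico (t + 1) 0) := by
      ext s
      simp only [mem_insert, mem_Ico]
      omega
    rw [this, sum_insert (by simp)]
    abel

theorem add_ev_self (x : V d) (j : Fin d) (t : ℤ) :
    Function.update (x + ev j) j t = Function.update x j t := by
  funext i
  by_cases h : i = j
  · subst h
    simp
  · simp [Function.update_of_ne h, ev, Pi.single_eq_of_ne h]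

theorem add_ev_other (x : V d) {i j : Fin d} (hij : i ≠ j) (t : ℤ) :
    Function.update (x + ev i) j t = Function.update x j t + ev i := by
  funext r
  by_cases h : r = j
  · subst h
    simp [ev, Pi.single_eq_of_ne hij.symm]
  · simp [Function.update_of_ne h, ev]

/-- closed cochains on the lattice are exact -/
theorem exists_potential (f : V d → Fin d → G)
    (hf : ∀ x i j, i ≠ j → f x i + f (x + ev i) j = f x j + f (x + ev j) i) :
    ∃ φ : V d → G, ∀ x i, φ (x + ev i) = φ x + f x i := by
  classical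
  suffices h : ∀ S : Finset (Fin d), ∃ φ : V d → G, ∀ i ∈ S, ∀ x, φ (x + ev i) = φ x + f x i by
    obtain ⟨φ, hφ⟩ := h univ
    exact ⟨φ, fun x i => hφ i (mem_univ _) x⟩
  intro S
  induction S using Finset.induction_on with
  | empty => exact ⟨fun _ => 0, by simp⟩
  | insert j S hj ih =>
    obtain ⟨φ, hφ⟩ := ih
    set g : V d → G := fun x => f x j - (φ (x + ev j) - φ x) with hg
    have hinv : ∀ i ∈ S, ∀ x, g (x + ev i) = g x := by
      intro i hi x
      have hne : i ≠ j := fun h => hj (h ▸ hi)
      have h1 := hf x i j hne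
      have h2 := hφ i hi (x + ev j)
      have h3 := hφ i hi x
      have h4 : x + ev i + ev j = x + ev j + ev i := by abel
      simp only [hg]
      rw [h4, h2, h3, eq_sub_of_add_eq' h1]
      abel
    refine ⟨fun x => φ x + psum (fun t => g (Function.update x j t)) (x j), ?_⟩
    intro i hi x
    rw [mem_insert] at hi
    by_cases hij : i = j
    · subst hij
      have h1 : (x + ev i) i = x i + 1 := by simp [ev]
      simp only [add_ev_self, h1, psum_succ, Function.update_eq_self]
      simp only [hg]
      abel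
    · have hiS : i ∈ S := hi.resolve_left hij
      have h1 : (x + ev i) j = x j := by simp [ev, Pi.single_eq_of_ne (Ne.symm hij)]
      simp only [add_ev_other x hij, hinv i hiS, h1, hφ i hiS x]
      abel

end Potential

/-! ## connected sets -/

/-- adjacent lattice points -/
def Adj (x y : V d) : Prop := ∃ i, y = x + ev i ∨ x = y + ev i

theorem Adj.symm {x y : V d} (h : Adj x y) : Adj y x := by
  obtain ⟨i, h⟩ := h
  exact ⟨i, h.symm⟩

/-- a path in `A` -/
def Jn (A : Set (V d)) (x y : V d) : Prop := Relation.ReflTransGen (fun a b => Adj a b ∧ b ∈ A) x y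

/-- connected sets of lattice points -/
def Conn (A : Set (V d)) : Prop := ∀ x ∈ A, ∀ y ∈ A, Jn A x y

/-- boundary edges, `(x, i)` is the edge from `x` to `x + ev i` -/
def Bdy (A : Set (V d)) (e : V d × Fin d) : Prop := ¬ (e.1 ∈ A ↔ e.1 + ev e.2 ∈ A)

/-- the four edges of a plaquette -/
def plq (x : V d) (i j : Fin d) : Set (V d × Fin d) :=
  {(x, i), (x + ev i, j), (x, j), (x + ev j, i)}

/-- two edges in a common plaquette -/
def Plq (e e' : V d × Fin d) : Prop := ∃ x i j, i ≠ j ∧ e ∈ plq x i j ∧ e' ∈ plq x i j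

/-- a chain of boundary edges -/
def Chn (A : Set (V d)) (e e' : V d × Fin d) : Prop :=
  Relation.ReflTransGen (fun a b => Plq a b ∧ Bdy A b) e e'

open Classical in
/-- **the cut lemma** -/
theorem cut_conn {A : Set (V d)} (hA : Conn A) (hA' : Conn Aᶜ) {e e' : V d × Fin d}
    (he : Bdy A e) (he' : Bdy A e') : Chn A e e' := by
  set P : Set (V d × Fin d) := {q | Bdy A q ∧ Chn A e q} with hP
  set f : V d → Fin d → ZMod 2 := fun x i => if (x, i) ∈ P then 1 else 0 with hf
  -- membership as a cochain
  set χ : V d → ZMod 2 := fun x => if x ∈ A then 1 else 0 with hχ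
  have hb : ∀ x i, (if Bdy A (x, i) then (1 : ZMod 2) else 0) = χ x + χ (x + ev i) := by
    intro x i
    unfold Bdy
    simp only [hχ]
    by_cases h1 : x ∈ A <;> by_cases h2 : x + ev i ∈ A <;> simp [h1, h2]
    rfl
  have hclosed : ∀ x i j, i ≠ j → f x i + f (x + ev i) j = f x j + f (x + ev j) i := by
    intro x i j hij
    by_cases hex : ∃ q ∈ plq x i j, q ∈ P
    · obtain ⟨q, hq, hqP⟩ := hex
      have hall : ∀ r ∈ plq x i j, (if r ∈ P then (1 : ZMod 2) else 0) =
          (if Bdy A r then 1 else 0) := by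
        intro r hr
        by_cases hbr : Bdy A r
        · have : r ∈ P := ⟨hbr, hqP.2.tail ⟨⟨x, i, j, hij, hq, hr⟩, hbr⟩⟩
          rw [if_pos this, if_pos hbr]
        · rw [if_neg hbr, if_neg (fun h => hbr h.1)]
      have h4 : x + ev i + ev j = x + ev j + ev i := by abel
      simp only [hf]
      rw [hall (x, i) (by simp [plq]), hall (x + ev i, j) (by simp [plq]),
        hall (x, j) (by simp [plq]), hall (x + ev j, i) (by simp [plq]), hb, hb, hb, hb, h4]
      have h5 : ∀ a b c : ZMod 2, a + b + (b + c) = a + c := by decide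
      rw [h5, h5]
    · push Not at hex
      simp only [hf]
      rw [if_neg (hex (x, i) (by simp [plq])), if_neg (hex (x + ev i, j) (by simp [plq])),
        if_neg (hex (x, j) (by simp [plq])), if_neg (hex (x + ev j, i) (by simp [plq]))]
  obtain ⟨φ, hφ⟩ := exists_potential f hclosed
  -- `φ` does not change along edges which are not boundary edges
  have hstep : ∀ x y, Adj x y → (x ∈ A ↔ y ∈ A) → φ x = φ y := by
    rintro x y ⟨i, rfl | rfl⟩ hxy
    · rw [hφ]
      have : (x, i) ∉ P := fun h => h.1 hxy
      simp only [hf, if_neg this, add_zero]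
    · rw [hφ]
      have : (y, i) ∉ P := fun h => h.1 hxy.symm
      simp only [hf, if_neg this, add_zero]
  have hconst : ∀ B : Set (V d), (∀ x y, x ∈ B → y ∈ B → (x ∈ A ↔ y ∈ A)) →
      ∀ x y, x ∈ B → Jn B x y → y ∈ B ∧ φ x = φ y := by
    intro B hB x y hx hxy
    induction hxy with
    | refl => exact ⟨hx, rfl⟩
    | tail _ hbc ih => exact ⟨hbc.2, ih.2.trans (hstep _ _ hbc.1 (hB _ _ ih.1 hbc.2))⟩
  have hA1 : ∀ x ∈ A, ∀ y ∈ A, φ x = φ y := fun x hx y hy =>
    (hconst A (fun _ _ h h' => ⟨fun _ => h', fun _ => h⟩) x y hx (hA x hx y hy)).2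
  have hA2 : ∀ x ∈ Aᶜ, ∀ y ∈ Aᶜ, φ x = φ y := fun x hx y hy =>
    (hconst Aᶜ (fun _ _ h h' => ⟨fun h1 => absurd h1 h, fun h1 => absurd h1 h'⟩) x y hx
      (hA' x hx y hy)).2
  -- a boundary edge in `P` and one which is not in `P` contradict each other
  have key : ∀ q : V d × Fin d, Bdy A q → ∀ a ∈ A, ∀ b ∈ Aᶜ, f q.1 q.2 = φ b - φ a := by
    rintro ⟨x, i⟩ hq a ha b hb'
    have h1 := hφ x i
    unfold Bdy at hq
    simp only at hq ⊢
    have h2 : ∀ u v : ZMod 2, u - v = v - u := by decide
    by_cases hx : x ∈ A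
    · have hy : x + ev i ∈ Aᶜ := fun h => hq ⟨fun _ => h, fun _ => hx⟩
      rw [hA1 a ha x hx, hA2 b hb' _ hy, h1]
      abel
    · have hy : x + ev i ∈ A := by
        by_contra h
        exact hq ⟨fun h' => absurd h' hx, fun h' => absurd h' h⟩
      rw [hA1 a ha _ hy, hA2 b hb' x hx, h2, h1]
      abel
  have hex : ∃ a ∈ A, ∃ b ∈ Aᶜ, True := by
    by_cases hx : e.1 ∈ A
    · exact ⟨e.1, hx, e.1 + ev e.2, fun h => he ⟨fun _ => h, fun _ => hx⟩, trivial⟩
    · refine ⟨e.1 + ev e.2, ?_, e.1, hx, trivial⟩
      by_contra h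
      exact he ⟨fun h' => absurd h' hx, fun h' => absurd h' h⟩
  obtain ⟨a, ha, b, hb', _⟩ := hex
  have h1 := key e he a ha b hb'
  have h2 := key e' he' a ha b hb'
  have h3 : e ∈ P := ⟨he, Relation.ReflTransGen.refl⟩
  have h4 : f e.1 e.2 = 1 := by
    show (if (e.1, e.2) ∈ P then (1 : ZMod 2) else 0) = 1
    exact if_pos h3
  by_contra hcon
  have h5 : f e'.1 e'.2 = 0 := by
    show (if (e'.1, e'.2) ∈ P then (1 : ZMod 2) else 0) = 0
    exact if_neg (fun h => hcon h.2)
  rw [h2, ← h1, h4] at h5
  exact one_ne_zero h5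

end Pool.Agent.Helper97.PG
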