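import Pool.Agent.Helper41.JT.Out

/-!
# Finitely many tails of rays: horofunctions and differences of passage times

If every geodesic ray has one of `k` tails then there are `k` additive functions `B i x y ≤ T x y`
such that `limsup (T x (y r) - T z (y r)) ≤ max B i x z` for every sequence of far away points.
-/

set_option autoImplicit false

namespace Pool.Agent.Helper97.PG

open Pool.Agent.Helper79.GR Pool.Agent.Helper41.JT Filter Topology

variable {d : ℕ} {c : Edge d → ℝ}

/-- the points of a walk -/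
def pt (z : V d) (h : ℕ → St d) (n : ℕ) : V d := pos z (pre h n)

theorem ult_finite {α : Type*} [Finite α] (U : Ultrafilter ℕ) (f : ℕ → α) :
    ∃ a, ∀ᶠ r in (U : Filter ℕ), f r = a := by
  obtain ⟨a, ha⟩ := Ultrafilter.eq_pure_of_finite (U.map f)
  refine ⟨a, ?_⟩
  have h1 : ({a} : Set α) ∈ U.map f := by
    rw [ha]
    exact Ultrafilter.mem_pure.2 rfl
  exact h1

/-- geodesics to far away points converge to a ray along an ultrafilter -/
theorem exists_limit_ray (hc : Ok c) (z : V d) (y : ℕ → V d) (U : Ultrafilter ℕ)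
    (hU : (U : Filter ℕ) ≤ atTop) (hy : Tendsto (fun r => n1 (y r)) atTop atTop) :
    ∃ h, RayF c z h ∧ ∀ n, ∀ᶠ r in (U : Filter ℕ),
      T c z (pt z h n) + T c (pt z h n) (y r) = T c z (y r) := by
  have hW := fun r => hc.exists_geo z (y r)
  choose W hW1 hW2 using hW
  -- the lengths tend to infinity
  have hlen : ∀ n : ℕ, ∀ᶠ r in (U : Filter ℕ), n < (W r).length := by
    intro n
    have h1 := (hy.eventually (eventually_gt_atTop (n1 z + n))).filter_mono hU
    filter_upwards [h1] with r hr
    have h2 := n1_pos_sub_le z (W r)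
    rw [hW1] at h2
    have h4 := n1_add_le (y r - z) z
    rw [sub_add_cancel] at h4
    have h3 : (n : ℝ) < (W r).length := by linarith
    exact_mod_cast h3
  have hstep : ∀ n : ℕ, ∃ s : St d, ∀ᶠ r in (U : Filter ℕ), (W r)[n]? = some s := by
    intro n
    obtain ⟨a, ha⟩ := ult_finite U (fun r => (W r)[n]?)
    cases a with
    | some s => exact ⟨s, ha⟩
    | none =>
      exfalso
      obtain ⟨r, hr, hr'⟩ := ((hlen n).and ha).exists
      rw [List.getElem?_eq_none_iff] at hr'
      omega
  choose h hh using hstep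
  have htake : ∀ n : ℕ, ∀ᶠ r in (U : Filter ℕ), (W r).take n = pre h n := by
    intro n
    induction n with
    | zero => exact Eventually.of_forall fun r => by simp [pre]
    | succ n ih =>
      filter_upwards [ih, hh n] with r h1 h2
      rw [pre_succ, ← h1, List.take_add_one, h2]
      rfl
  refine ⟨h, fun n => ?_, fun n => ?_⟩
  · obtain ⟨r, hr⟩ := (htake n).exists
    have h1 := (hW2 r).take n
    rwa [hr] at h1
  · filter_upwards [htake n] with r hr
    have h1 := hc.split (hW2 r) n
    rw [hr, hW1] at h1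
    exact h1

/-- differences of passage times converge along a ray -/
theorem conv_ray (hc : Ok c) {z : V d} {h : ℕ → St d} (hg : RayF c z h) (x y : V d) :
    ∃ l, Tendsto (fun n => T c x (pt z h n) - T c y (pt z h n)) atTop (𝓝 l) := by
  have hone : ∀ x : V d, ∃ l, Tendsto (fun n => dl c z x (pt z h n)) atTop (𝓝 l) := by
    intro x
    have hmono : Monotone fun n => dl c z x (pt z h n) := by
      intro n m hnm
      exact dl_mono hc (hg.split hc hnm).le
    have hbdd : BddAbove (Set.range fun n => dl c z x (pt z h n)) :=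
      ⟨T c z x, by rintro _ ⟨n, rfl⟩; exact dl_le hc z x _⟩
    exact ⟨_, tendsto_atTop_ciSup hmono hbdd⟩
  obtain ⟨a, ha⟩ := hone x
  obtain ⟨b, hb⟩ := hone y
  refine ⟨b - a, (hb.sub ha).congr fun n => ?_⟩
  unfold dl
  ring

/-- the sequence `G` is the tail of a ray -/
def Tl (c : Edge d → ℝ) (G : ℕ → V d) (z : V d) (h : ℕ → St d) : Prop :=
  RayF c z h ∧ ∃ m n : ℕ, ∀ j, pt z h (m + j) = G (n + j)

theorem conv_tail (hc : Ok c) {G : ℕ → V d} {z : V d} {h : ℕ → St d} (hT : Tl c G z h)
    (x y : V d) : ∃ l, Tendsto (fun n => T c x (G n) - T c y (G n)) atTop (𝓝 l) := by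
  obtain ⟨hg, m, n, hmn⟩ := hT
  obtain ⟨l, hl⟩ := conv_ray hc hg x y
  refine ⟨l, ?_⟩
  rw [← tendsto_add_atTop_iff_nat n]
  have h1 := (tendsto_add_atTop_iff_nat m).2 hl
  refine h1.congr fun j => ?_
  rw [add_comm j m, hmn, add_comm n j]

/-- the limit along `G` -/
noncomputable def Lm (c : Edge d → ℝ) (G : ℕ → V d) (x y : V d) : ℝ :=
  limUnder atTop fun n => T c x (G n) - T c y (G n)

theorem tendsto_Lm (hc : Ok c) {G : ℕ → V d} {z : V d} {h : ℕ → St d} (hT : Tl c G z h)
    (x y : V d) : Tendsto (fun n => T c x (G n) - T c y (G n)) atTop (𝓝 (Lm c G x y)) :=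
  tendsto_nhds_limUnder (conv_tail hc hT x y)

theorem tendsto_ray (hc : Ok c) {G : ℕ → V d} {z : V d} {h : ℕ → St d} (hT : Tl c G z h)
    (x y : V d) : Tendsto (fun n => T c x (pt z h n) - T c y (pt z h n)) atTop
      (𝓝 (Lm c G x y)) := by
  have h1 := tendsto_Lm hc hT x y
  obtain ⟨hg, m, n, hmn⟩ := hT
  rw [← tendsto_add_atTop_iff_nat m]
  have h2 := (tendsto_add_atTop_iff_nat n).2 h1
  refine h2.congr fun j => ?_
  rw [add_comm j m, hmn, add_comm n j]

theorem Lm_add (hc : Ok c) {G : ℕ → V d} {z : V d} {h : ℕ → St d} (hT : Tl c G z h)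
    (x y v : V d) : Lm c G x y + Lm c G y v = Lm c G x v := by
  refine tendsto_nhds_unique ((tendsto_Lm hc hT x y).add (tendsto_Lm hc hT y v)) ?_
  refine (tendsto_Lm hc hT x v).congr fun n => ?_
  ring

theorem Lm_le (hc : Ok c) {G : ℕ → V d} {z : V d} {h : ℕ → St d} (hT : Tl c G z h)
    (x y : V d) : Lm c G x y ≤ T c x y := by
  refine le_of_tendsto (tendsto_Lm hc hT x y) (Eventually.of_forall fun n => ?_)
  have := hc.triangle x y (G n)
  linarith

/-- **horofunctions**: if every ray has one of the tails `G i`, there are additive functions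
`B i x y ≤ T x y` which bound the differences of passage times to far away points -/
theorem horo (hc : Ok c) {k : ℕ} (G : Fin k → ℕ → V d)
    (hG : ∀ z h, RayF c z h → ∃ (i : Fin k) (m n : ℕ), ∀ j, pt z h (m + j) = G i (n + j)) :
    ∃ B : Fin k → V d → V d → ℝ, (∀ i x y v, B i x y + B i y v = B i x v) ∧
      (∀ i x y, B i x y ≤ T c x y) ∧
      ∀ (x z : V d) (y : ℕ → V d), Tendsto (fun r => n1 (y r)) atTop atTop →
        ∃ i, ∀ ε : ℝ, 0 < ε → ∀ᶠ r in atTop, T c x (y r) - T c z (y r) ≤ B i x z + ε := by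
  classical
  by_cases hex : ∃ (i : Fin k) (z : V d) (h : ℕ → St d), Tl c (G i) z h
  · obtain ⟨i0, z0, h0, hT0⟩ := hex
    -- the index which is used for `i`
    set J : Fin k → Fin k := fun i => if ∃ z h, Tl c (G i) z h then i else i0 with hJ
    have hJT : ∀ i, ∃ z h, Tl c (G (J i)) z h := by
      intro i
      simp only [hJ]
      split_ifs with hi
      · exact hi
      · exact ⟨z0, h0, hT0⟩
    refine ⟨fun i => Lm c (G (J i)), ?_, ?_, ?_⟩
    · intro i x y v
      obtain ⟨z, h, hT⟩ := hJT i
      exact Lm_add hc hT x y v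
    · intro i x y
      obtain ⟨z, h, hT⟩ := hJT i
      exact Lm_le hc hT x y
    · intro x z y hy
      obtain ⟨i, -, hi⟩ := Finset.exists_max_image (Finset.univ : Finset (Fin k))
        (fun i => Lm c (G (J i)) x z) ⟨i0, Finset.mem_univ _⟩
      refine ⟨i, fun ε hε => ?_⟩
      by_contra hcon
      rw [not_eventually] at hcon
      have hne : (atTop ⊓ 𝓟 {r | ¬ T c x (y r) - T c z (y r) ≤ Lm c (G (J i)) x z + ε}).NeBot :=
        frequently_mem_iff_neBot.1 hcon
      set U := Ultrafilter.of
        (atTop ⊓ 𝓟 {r | ¬ T c x (y r) - T c z (y r) ≤ Lm c (G (J i)) x z + ε}) with hUdef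
      have hU : (U : Filter ℕ) ≤
          atTop ⊓ 𝓟 {r | ¬ T c x (y r) - T c z (y r) ≤ Lm c (G (J i)) x z + ε} :=
        Ultrafilter.of_le _
      have hU1 : (U : Filter ℕ) ≤ atTop := hU.trans inf_le_left
      have hU2 : ∀ᶠ r in (U : Filter ℕ), ¬ T c x (y r) - T c z (y r) ≤ Lm c (G (J i)) x z + ε :=
        hU.trans inf_le_right (mem_principal_self _)
      obtain ⟨h, hray, hh⟩ := exists_limit_ray hc z y U hU1 hy
      obtain ⟨i', m, n, hmn⟩ := hG z h hray
      have hT' : Tl c (G i') z h := ⟨hray, m, n, hmn⟩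
      have hJi' : J i' = i' := by
        simp only [hJ]
        exact if_pos ⟨z, h, hT'⟩
      have hlim := tendsto_ray hc hT' x z
      have hbound : ∀ n, Lm c (G (J i)) x z + ε ≤ T c x (pt z h n) - T c z (pt z h n) := by
        intro n
        obtain ⟨r, hr1, hr2⟩ := ((hh n).and hU2).exists
        have h1 := hc.triangle x (pt z h n) (y r)
        rw [not_le] at hr2
        linarith
      have h1 := ge_of_tendsto hlim (Eventually.of_forall hbound)
      have h2 := hi i' (Finset.mem_univ _)
      simp only [hJi'] at h2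
      linarith
  · -- there are no rays, so there are no far away points
    push Not at hex
    refine ⟨fun _ _ _ => 0, fun _ _ _ _ => by simp, fun _ x y => T_nonneg hc.ps x y, ?_⟩
    intro x z y hy
    exfalso
    obtain ⟨h, hray, -⟩ := exists_limit_ray hc z y (hyperfilter ℕ)
      (by rw [← Nat.cofinite_eq_atTop]; exact hyperfilter_le_cofinite) hy
    obtain ⟨i, m, n, hmn⟩ := hG z h hray
    exact hex i z h ⟨hray, m, n, hmn⟩

end Pool.Agent.Helper97.PG
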