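import Mathlib

/-!
# Maxima of differences of Lipschitz functions (blow-up step of helper30's argument)

If `u (v - w) = max_c (b c v - b c w)` for all `v, w`, with finitely many functions `b c`, and `u` is
positively homogeneous, then `u` is a maximum of finitely many linear functionals: differentiate the
`b c` at one point (Rademacher).
-/

set_option autoImplicit false

namespace Pool.Agent.Helper97.PG

open Filter Topology MeasureTheory

variable {E : Type*} [NormedAddCommGroup E] [NormedSpace ℝ E] [FiniteDimensional ℝ E]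

/-- finitely many Lipschitz functions have a common point of differentiability -/
theorem exists_common_point {k : ℕ} {C : NNReal} {b : Fin k → E → ℝ}
    (hb : ∀ c, LipschitzWith C (b c)) : ∃ w, ∀ c, DifferentiableAt ℝ (b c) w := by
  let _ : MeasurableSpace E := borel E
  have : BorelSpace E := ⟨rfl⟩
  have h : ∀ᵐ w ∂(Measure.addHaar : Measure E), ∀ c, DifferentiableAt ℝ (b c) w :=
    (ae_all_iff).2 fun c => (hb c).ae_differentiableAt
  exact h.exists

/-- **the blow-up step** -/
theorem max_linear {k : ℕ} {C : ℝ} {u : E → ℝ} {b : Fin k → E → ℝ}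
    (hC : ∀ x, u x ≤ C * ‖x‖) (hu : ∀ t : ℝ, 0 < t → ∀ x, u (t • x) = t * u x)
    (hle : ∀ c v w, b c v - b c w ≤ u (v - w)) (hex : ∀ v w, ∃ c, b c v - b c w = u (v - w)) :
    ∃ L : Fin k → (E →L[ℝ] ℝ), ∀ x, (∀ c, L c x ≤ u x) ∧ ∃ c, L c x = u x := by
  have hL : ∀ c, LipschitzWith C.toNNReal (b c) := by
    intro c
    refine LipschitzWith.of_dist_le_mul fun v w => ?_
    have hmain : ∀ v w : E, b c v - b c w ≤ C.toNNReal * dist v w := by
      intro v w
      refine (hle c v w).trans ((hC _).trans ?_)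
      rw [dist_eq_norm]
      exact mul_le_mul_of_nonneg_right (Real.le_coe_toNNReal C) (norm_nonneg _)
    rw [Real.dist_eq, abs_le]
    refine ⟨?_, hmain v w⟩
    have := hmain w v
    rw [dist_comm] at this
    linarith
  obtain ⟨w, hw⟩ := exists_common_point hL
  refine ⟨fun c => fderiv ℝ (b c) w, fun x => ?_⟩
  -- the difference quotients
  set t : ℕ → ℝ := fun n => ((n : ℝ) + 1)⁻¹ with ht
  have htpos : ∀ n, 0 < t n := fun n => by simp only [ht]; positivity
  have ht0 : Tendsto t atTop (𝓝 0) := tendsto_inv_atTop_zero.comp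
    (tendsto_atTop_add_const_right _ _ tendsto_natCast_atTop_atTop)
  have hlim : ∀ c, Tendsto (fun n => (t n)⁻¹ * (b c (w + t n • x) - b c w)) atTop
      (𝓝 (fderiv ℝ (b c) w x)) := by
    intro c
    have h1 := (hw c).hasFDerivAt.hasLineDerivAt x
    have h2 := h1.tendsto_slope_zero
    have h3 : Tendsto t atTop (𝓝[≠] 0) :=
      tendsto_nhdsWithin_iff.2 ⟨ht0, Eventually.of_forall fun n => (htpos n).ne'⟩
    have h4 := h2.comp h3
    simpa [Function.comp_def] using h4
  have hq : ∀ c n, (t n)⁻¹ * (b c (w + t n • x) - b c w) ≤ u x := by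
    intro c n
    have h1 := hle c (w + t n • x) w
    rw [add_sub_cancel_left, hu _ (htpos n)] at h1
    rw [inv_mul_le_iff₀ (htpos n)]
    exact h1
  refine ⟨fun c => le_of_tendsto (hlim c) (Eventually.of_forall (hq c)), ?_⟩
  have hch : ∀ n, ∃ c, (t n)⁻¹ * (b c (w + t n • x) - b c w) = u x := by
    intro n
    obtain ⟨c, hc⟩ := hex (w + t n • x) w
    rw [add_sub_cancel_left, hu _ (htpos n)] at hc
    exact ⟨c, by rw [hc, inv_mul_cancel_left₀ (htpos n).ne']⟩
  choose c hc using hch
  -- one index occurs infinitely often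
  obtain ⟨c0, hc0⟩ : ∃ c0, ∃ᶠ n in atTop, c n = c0 := by
    by_contra hcon
    push Not at hcon
    have h1 : ∀ᶠ n in atTop, ∀ c0, c n ≠ c0 := by
      rw [eventually_all]
      intro c0
      exact hcon c0
    obtain ⟨n, hn⟩ := h1.exists
    exact hn _ rfl
  refine ⟨c0, ?_⟩
  have hfr : ∃ᶠ n in atTop, (t n)⁻¹ * (b c0 (w + t n • x) - b c0 w) = u x :=
    hc0.mono fun n hn => by
      rw [← hn]
      exact hc n
  exact tendsto_nhds_unique_of_frequently_eq (hlim c0) tendsto_const_nhds hfr

end Pool.Agent.Helper97.PG
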