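import Pool.Agent.Helper97.PG.Horo
import Pool.Agent.Helper30.PG.Coc2

/-!
# From the join theorem to finitely many tails and horofunctions
-/

set_option autoImplicit false

namespace Pool.Agent.Helper97.PG

open Pool.Agent.Helper79.GR Pool.Agent.Helper41.JT Filter Topology

variable {d : ℕ} {c c' : Edge d → ℝ}

theorem pos_pre_add (x : V d) (h : ℕ → St d) (m j : ℕ) :
    pos x (pre h (m + j)) = pos (pos x (pre h m)) (pre (fun i => h (m + i)) j) := by
  have h1 : pre h (m + j) = pre h m ++ pre (fun i => h (m + i)) j := by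
    unfold pre
    rw [List.range_add, List.map_append, List.map_map]
    rfl
  rw [h1, pos_append]

/-- if `y` joins the ray `g` from `x`, some ray from `y` has the same tail -/
theorem exists_ray_of_join (hc : Ok c) {x y : V d} {g : ℕ → St d} (hg : RayF c x g)
    (hj : Join c x y g) : ∃ h, RayF c y h ∧ ∃ m n : ℕ, ∀ j, pt x g (n + j) = pt y h (m + j) := by
  obtain ⟨n, hn⟩ := hj
  obtain ⟨u, hu1, hu2⟩ := hc.exists_geo y (pos x (pre g n))
  set h : ℕ → St d := fun i => if hi : i < u.length then u[i] else g (n + (i - u.length)) with hh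
  have hpre1 : ∀ j, pre h (u.length + j) = u ++ pre (fun i => g (n + i)) j := by
    intro j
    have e1 : pre h (u.length + j) = pre h u.length ++ pre (fun i => h (u.length + i)) j := by
      unfold pre
      rw [List.range_add, List.map_append, List.map_map]
      rfl
    have e2 : pre h u.length = u := by
      apply List.ext_getElem
      · rw [length_pre]
      · intro i h1 h2
        simp only [pre, List.getElem_map, List.getElem_range, hh]
        rw [dif_pos h2]
    have e3 : (fun i => h (u.length + i)) = fun i => g (n + i) := by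
      funext i
      simp only [hh]
      rw [dif_neg (by omega), Nat.add_sub_cancel_left]
    rw [e1, e2, e3]
  have hgeo : ∀ j, Geo c y (pre h (u.length + j)) := by
    intro j
    rw [hpre1]
    -- the tail of `g` is a geodesic
    have h1 := hg (n + j)
    have e1 : pre g (n + j) = pre g n ++ pre (fun i => g (n + i)) j := by
      unfold pre
      rw [List.range_add, List.map_append, List.map_map]
      rfl
    have e2 : pos (pos x (pre g n)) (pre (fun i => g (n + i)) j) = pos x (pre g (n + j)) := by
      rw [e1, pos_append]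
    have h2 := hg.split hc (Nat.le_add_right n j)
    have hdrop : Geo c (pos x (pre g n)) (pre (fun i => g (n + i)) j) := by
      rw [hc.geo_iff, e2]
      have h3 := (hc.geo_iff x _).1 h1
      have h4 := (hc.geo_iff x _).1 (hg n)
      rw [e1, cost_append, ← e1, h4] at h3
      linarith
    refine hc.geo_append hu1 hu2 hdrop ?_
    rw [e2]
    have h5 := hn (n + j) (Nat.le_add_right n j)
    unfold dl at h5
    linarith
  refine ⟨h, ?_, u.length, n, fun j => ?_⟩
  · intro i
    have h1 := (hgeo i).take i
    rwa [take_pre h (Nat.le_add_left i u.length)] at h1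
  · unfold pt
    rw [hpre1, pos_append, hu1, ← pos_pre_add]

/-- **finitely many tails**: `c` are the weights, `c'` the capped weights -/
theorem exists_tails (hc : Ok c) (hfin : {h : ℕ → St d | RayF c 0 h}.Finite)
    (hJ : ∀ x g, RayF c x g → Join c x 0 g)
    (hcap : ∀ z h, RayF c' z h → ∃ m : ℕ, RayF c (pt z h m) (fun i => h (m + i))) :
    ∃ (k : ℕ) (G : Fin k → ℕ → V d), ∀ z h, RayF c' z h →
      ∃ (i : Fin k) (m n : ℕ), ∀ j, pt z h (m + j) = G i (n + j) := by
  classical
  set F := hfin.toFinset with hF
  refine ⟨F.card, fun i => pt 0 ((F.equivFin.symm i : F) : ℕ → St d), ?_⟩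
  intro z h hr
  obtain ⟨m, hm⟩ := hcap z h hr
  obtain ⟨h', hh', m', n', he⟩ := exists_ray_of_join hc hm (hJ _ _ hm)
  have hmem : h' ∈ F := by
    rw [hF, Set.Finite.mem_toFinset]
    exact hh'
  refine ⟨F.equivFin ⟨h', hmem⟩, m + n', m', fun j => ?_⟩
  simp only [Equiv.symm_apply_apply]
  rw [← he j]
  unfold pt
  rw [← pos_pre_add, add_assoc]

/-- **horofunctions from the join theorem** -/
theorem horo_of_join (hc : Ok c) (hc' : Ok c') (hfin : {h : ℕ → St d | RayF c 0 h}.Finite)
    (hJ : ∀ x g, RayF c x g → Join c x 0 g)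
    (hcap : ∀ z h, RayF c' z h → ∃ m : ℕ, RayF c (pt z h m) (fun i => h (m + i))) :
    ∃ (k : ℕ) (B : Fin k → V d → V d → ℝ), Pool.Agent.Helper30.PG.Horo (T c') B := by
  obtain ⟨k, G, hG⟩ := exists_tails hc hfin hJ hcap
  obtain ⟨B, h1, h2, h3⟩ := horo hc' G hG
  exact ⟨k, B, h1, h2, h3⟩

end Pool.Agent.Helper97.PG
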